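import Pool.Agent.TH790.SDG.Glue2

/-!
# Project SD, job G10, part 3: the equivariant field over the sphere
-/

set_option autoImplicit false

open scoped ContDiff Topology
open Set Filter

noncomputable section

namespace Pool.Agent.TH790.SDG

open Pool.Agent.TH179.SD

/-- the last four coordinates -/
def tl (z : C5) : V := fun i => z i.succ

theorem tl_cont : Continuous tl := by unfold tl; fun_prop

/-- the square of the norm of the last four coordinates -/
def ss (z : C5) : ℝ := na (tl z) + nb (tl z)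

theorem ss_cont : Continuous ss := (cont_na.comp tl_cont).add (cont_nb.comp tl_cont)

theorem ss_nonneg (z : C5) : 0 ≤ ss z := add_nonneg (na_nonneg _) (nb_nonneg _)

theorem ss_pos {z : C5} (h : tl z ≠ 0) : 0 < ss z := by
  rcases (ss_nonneg z).lt_or_eq with h1 | h1
  · exact h1
  · exfalso
    unfold ss at h1
    have h2 := na_nonneg (tl z)
    have h3 := nb_nonneg (tl z)
    exact h (eq_zero_of_na_nb (by linarith) (by linarith))

theorem ss_eq (z : C5) : ss z = ∑ i : Fin 4, Complex.normSq (z i.succ) := by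
  simp only [ss, na, nb, tl, Complex.normSq_apply, Fin.sum_univ_four]
  ring

theorem na_add_nb_smul (c : ℂ) (x : V) : na (c • x) + nb (c • x) =
    Complex.normSq c * (na x + nb x) := by
  simp only [na, nb, Complex.normSq_apply, Pi.smul_apply, smul_eq_mul, Complex.mul_re,
    Complex.mul_im]
  ring

/-- the point of `V` -/
def xx (z : C5) : V := (z 0 / (ss z : ℂ)) • tl z

theorem xx_apply (z : C5) (i : Fin 4) : xx z i = z 0 / (ss z : ℂ) * z i.succ := rfl

theorem xx_contAt {z : C5} (h : tl z ≠ 0) : ContinuousAt xx z := by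
  have h1 : (ss z : ℂ) ≠ 0 := by exact_mod_cast (ss_pos h).ne'
  have h2 : ContinuousAt (fun z : C5 => z 0 / (ss z : ℂ)) z :=
    (continuous_apply 0).continuousAt.div
      (Complex.continuous_ofReal.comp ss_cont).continuousAt h1
  exact h2.smul tl_cont.continuousAt

theorem xx_ne {z : C5} (h0 : z 0 ≠ 0) (h : tl z ≠ 0) : xx z ≠ 0 := by
  have h1 : (ss z : ℂ) ≠ 0 := by exact_mod_cast (ss_pos h).ne'
  unfold xx
  exact smul_ne_zero (div_ne_zero h0 h1) h

theorem xx_norm {z : C5} (h : tl z ≠ 0) :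
    na (xx z) + nb (xx z) = Complex.normSq (z 0) / ss z := by
  unfold xx
  rw [na_add_nb_smul]
  have h1 := ss_pos h
  rw [Complex.normSq_div, Complex.normSq_ofReal]
  change _ * ss z = _
  field_simp

theorem rr_le_one {x : V} (h : na x + nb x ≤ 1) : rr x ≤ 1 := by
  unfold rr
  rw [Real.sqrt_le_left zero_le_one, one_pow]
  exact max_le (by linarith [nb_nonneg x]) (by linarith [na_nonneg x])

theorem three_le_rr {x : V} (h : 18 ≤ na x + nb x) : 3 ≤ rr x := by
  unfold rr
  apply Real.le_sqrt_of_sq_le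
  rcases le_total (na x) (nb x) with h1 | h1
  · rw [max_eq_right h1]; linarith
  · rw [max_eq_left h1]; linarith

/-- the map with kernel `ℂ z`, for `z 0 ≠ 0` -/
def FF (z : C5) : C5 →L[ℂ] V :=
  ContinuousLinearMap.pi fun i : Fin 4 => z 0 • (ContinuousLinearMap.proj i.succ : C5 →L[ℂ] ℂ) -
    z i.succ • (ContinuousLinearMap.proj 0 : C5 →L[ℂ] ℂ)

theorem FF_apply (z v : C5) (i : Fin 4) : FF z v i = z 0 * v i.succ - z i.succ * v 0 := by
  simp [FF]

/-- the map with kernel `ℂ z`, for `z j.succ ≠ 0` -/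
def KK (z : C5) (j : Fin 4) : C5 →L[ℂ] V :=
  ContinuousLinearMap.pi fun i : Fin 4 => if i = j then
    z 0 • (ContinuousLinearMap.proj j.succ : C5 →L[ℂ] ℂ) -
      z j.succ • (ContinuousLinearMap.proj 0 : C5 →L[ℂ] ℂ)
    else ((ss z : ℂ) / z j.succ) • ((ContinuousLinearMap.proj i.succ : C5 →L[ℂ] ℂ) -
      (z i.succ / z j.succ) • (ContinuousLinearMap.proj j.succ : C5 →L[ℂ] ℂ))

theorem KK_self (z v : C5) (j : Fin 4) : KK z j v j = z 0 * v j.succ - z j.succ * v 0 := by
  simp [KK]

theorem KK_ne (z v : C5) {i j : Fin 4} (h : i ≠ j) : KK z j v i =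
    (ss z : ℂ) / z j.succ * (v i.succ - z i.succ / z j.succ * v j.succ) := by
  simp [KK, h]

theorem clm_contAt {X : Type} [TopologicalSpace X] {f : X → C5 →L[ℂ] V} {x : X}
    (h : ∀ v i, ContinuousAt (fun y => f y v i) x) :
    ContinuousAt (fun y => (f y).restrictScalars ℝ) x := by
  have h1 : ContinuousAt f x := by
    rw [continuousAt_clm_apply]
    intro v
    rw [continuousAt_pi]
    exact h v
  exact (ContinuousLinearMap.restrictScalarsL ℂ C5 V ℝ ℝ).continuous.continuousAt.comp h1

theorem FF_contAt (z : C5) : ContinuousAt (fun z => (FF z).restrictScalars ℝ) z := by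
  apply clm_contAt
  intro v i
  simp only [FF_apply]
  fun_prop

theorem ssC_contAt (z : C5) : ContinuousAt (fun z : C5 => (ss z : ℂ)) z :=
  (Complex.continuous_ofReal.comp ss_cont).continuousAt

theorem KK_contAt {z : C5} {j : Fin 4} (h : z j.succ ≠ 0) :
    ContinuousAt (fun z => (KK z j).restrictScalars ℝ) z := by
  apply clm_contAt
  intro v i
  have h0 := ssC_contAt z
  by_cases hi : i = j
  · subst hi
    simp only [KK_self]
    fun_prop
  · simp only [KK_ne _ _ hi]
    have h1 : ContinuousAt (fun y : C5 => y j.succ) z := (continuous_apply _).continuousAt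
    have h2 : ContinuousAt (fun y : C5 => y i.succ) z := (continuous_apply _).continuousAt
    exact (h0.div h1 h).mul (continuousAt_const.sub ((h2.div h1 h).mul continuousAt_const))

/-- the point in the chart `inl j` -/
def pp (z : C5) (j : Fin 4) : V := fun i => if i = j then z 0 / (ss z : ℂ) * z j.succ else
  z i.succ / z j.succ

theorem pp_contAt {z : C5} {j : Fin 4} (h : z j.succ ≠ 0) : ContinuousAt (fun z => pp z j) z := by
  have h3 : tl z ≠ 0 := fun h4 => h (congrFun h4 j)
  have h5 : (ss z : ℂ) ≠ 0 := by exact_mod_cast (ss_pos h3).ne'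
  have h0 := ssC_contAt z
  have h1 : ContinuousAt (fun y : C5 => y j.succ) z := (continuous_apply _).continuousAt
  rw [continuousAt_pi]
  intro i
  have h2 : ContinuousAt (fun y : C5 => y i.succ) z := (continuous_apply _).continuousAt
  have h4 : ContinuousAt (fun y : C5 => y 0) z := (continuous_apply _).continuousAt
  by_cases hi : i = j
  · simp only [pp, hi, if_true]
    exact (h4.div h0 h5).mul h1
  · simp only [pp, hi, if_false]
    exact h2.div h1 h

theorem pp_eq {z : C5} {j : Fin 4} (h0 : z 0 ≠ 0) (h : z j.succ ≠ 0) : pp z j = bu j (xx z) := by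
  have h3 : tl z ≠ 0 := fun h4 => h (congrFun h4 j)
  have h5 : (ss z : ℂ) ≠ 0 := by exact_mod_cast (ss_pos h3).ne'
  funext i
  by_cases hi : i = j
  · subst hi
    simp [pp, bu, xx_apply]
  · simp only [pp, bu, hi, if_false, xx_apply]
    field_simp

theorem xx_j_ne {z : C5} {j : Fin 4} (h0 : z 0 ≠ 0) (h : z j.succ ≠ 0) : xx z j ≠ 0 := by
  have h3 : tl z ≠ 0 := fun h4 => h (congrFun h4 j)
  have h5 : (ss z : ℂ) ≠ 0 := by exact_mod_cast (ss_pos h3).ne'
  rw [xx_apply]
  exact mul_ne_zero (div_ne_zero h0 h5) h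

theorem fderiv_bu_FF {z : C5} {j : Fin 4} (h0 : z 0 ≠ 0) (h : z j.succ ≠ 0) :
    (fderiv ℝ (bu j) (xx z)).comp ((FF z).restrictScalars ℝ) = (KK z j).restrictScalars ℝ := by
  have h3 : tl z ≠ 0 := fun h4 => h (congrFun h4 j)
  have h5 : (ss z : ℂ) ≠ 0 := by exact_mod_cast (ss_pos h3).ne'
  have hx := xx_j_ne h0 h
  rw [(bu_hasFDerivAt j (xx z) hx).fderiv]
  ext v i
  show buD j (xx z) (FF z v) i = KK z j v i
  by_cases hi : i = j
  · subst hi
    rw [KK_self]
    simp [buD, FF_apply]
  · rw [KK_ne _ _ hi]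
    simp only [buD, ContinuousLinearMap.pi_apply, hi, if_false]
    simp only [FunLike.coe_sub, FunLike.coe_smul, Pi.sub_apply,
      Pi.smul_apply, ContinuousLinearMap.proj_apply, smul_eq_mul, FF_apply, xx_apply]
    field_simp
    ring

/-- the form near `z 0 = 0` -/
def OL (w : Idx → V → Alt 2) (j : Fin 4) (z : C5) : AltE C5 2 :=
  (w (Sum.inl j) (pp z j)).compContinuousLinearMap ((KK z j).restrictScalars ℝ)

theorem OL_contAt {w : Idx → V → Alt 2} (hw : IsF 2 w) {z : C5} {j : Fin 4} (h : z j.succ ≠ 0) :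
    ContinuousAt (OL w j) z := by
  unfold OL
  refine pb_contAt ?_ (KK_contAt h)
  exact (hw.smooth _).continuous.continuousAt.comp (f := fun z => pp z j) (pp_contAt h)

theorem OL_eq (hS : TaskSmooth) {w : Idx → V → Alt 2} (hw : IsF 2 w) {z : C5} {j : Fin 4}
    (h0 : z 0 ≠ 0) (h : z j.succ ≠ 0) :
    OL w j z = (AA w (xx z)).compContinuousLinearMap ((FF z).restrictScalars ℝ) := by
  rw [AA_eq_AL hS hw (xx_j_ne h0 h)]
  unfold OL AL
  rw [pb_pb, fderiv_bu_FF h0 h, pp_eq h0 h]

theorem OL_indep (hS : TaskSmooth) {w : Idx → V → Alt 2} (hw : IsF 2 w) {z : C5} {j k : Fin 4}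
    (hj : z j.succ ≠ 0) (hk : z k.succ ≠ 0) : OL w j z = OL w k z := by
  -- approach `z` by the points `z + t e₀`
  let g : ℝ → C5 := fun t => z + Pi.single 0 (t : ℂ)
  have hg : Continuous g := by
    refine continuous_const.add ?_
    exact (continuous_single (A := fun _ : Fin 5 => ℂ) 0).comp Complex.continuous_ofReal
  have hg0 : g 0 = z := by simp [g]
  have h1 : Tendsto (fun t => OL w j (g t)) (𝓝 0) (𝓝 (OL w j z)) := by
    have h2 : ContinuousAt (OL w j) (g 0) := by rw [hg0]; exact OL_contAt hw hj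
    have h3 := h2.tendsto.comp hg.continuousAt.tendsto
    rw [hg0] at h3
    exact h3
  have h2 : Tendsto (fun t => OL w k (g t)) (𝓝 0) (𝓝 (OL w k z)) := by
    have h2 : ContinuousAt (OL w k) (g 0) := by rw [hg0]; exact OL_contAt hw hk
    have h3 := h2.tendsto.comp hg.continuousAt.tendsto
    rw [hg0] at h3
    exact h3
  refine tendsto_nhds_unique_of_frequently_eq h1 h2 ?_
  -- the equality holds for all `t` with `z 0 + t ≠ 0`
  have hs : ∀ (t : ℝ) (i : Fin 4), g t i.succ = z i.succ := by
    intro t i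
    simp [g, Fin.succ_ne_zero]
  have h0 : ∀ t : ℝ, g t 0 = z 0 + t := by
    intro t; simp [g]
  have h3 : ∀ t : ℝ, z 0 + t ≠ 0 → OL w j (g t) = OL w k (g t) := by
    intro t ht
    have ht' : g t 0 ≠ 0 := by rw [h0]; exact ht
    rw [OL_eq hS hw ht' (by rw [hs]; exact hj), OL_eq hS hw ht' (by rw [hs]; exact hk)]
  rw [Filter.frequently_iff]
  intro U hU
  by_cases hz : z 0 = 0
  · -- a small positive t
    obtain ⟨e, he, hb⟩ := Metric.mem_nhds_iff.1 hU
    refine ⟨e / 2, hb ?_, h3 _ ?_⟩
    · rw [Metric.mem_ball, Real.dist_eq, sub_zero, abs_of_pos (by linarith)]; linarith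
    · rw [hz, zero_add]
      exact_mod_cast (by linarith : e / 2 ≠ 0)
  · refine ⟨0, mem_of_mem_nhds hU, h3 _ ?_⟩
    simpa using hz

open Classical in
/-- the field over the sphere -/
def Om (T : V → V →L[ℝ] V) (w : Idx → V → Alt 2) (H : ℝ → V → NegForm) (y0 : NegForm) (z : C5) :
    AltE C5 2 :=
  if z 0 = 0 then (if h : ∃ j : Fin 4, z j.succ ≠ 0 then OL w h.choose z else 0)
  else (if tl z = 0 then y0.1 else At T w H (xx z)).compContinuousLinearMap
    ((FF z).restrictScalars ℝ)

section

variable {T : V → V →L[ℝ] V} {TA : Fin 3 → V → V →L[ℝ] V} {H : ℝ → V → NegForm} {y0 : NegForm}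

theorem Om_zero (hS : TaskSmooth) {w : Idx → V → Alt 2} (hw : IsF 2 w) {z : C5} {j : Fin 4}
    (h0 : z 0 = 0) (h : z j.succ ≠ 0) : Om T w H y0 z = OL w j z := by
  unfold Om
  have hex : ∃ j : Fin 4, z j.succ ≠ 0 := ⟨j, h⟩
  rw [if_pos h0, dif_pos hex]
  exact OL_indep hS hw hex.choose_spec h

theorem Om_ne {w : Idx → V → Alt 2} {z : C5} (h0 : z 0 ≠ 0) (h : tl z ≠ 0) :
    Om T w H y0 z = (At T w H (xx z)).compContinuousLinearMap ((FF z).restrictScalars ℝ) := by
  unfold Om
  rw [if_neg h0, if_neg h]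

theorem Om_pole {w : Idx → V → Alt 2} {z : C5} (h0 : z 0 ≠ 0) (h : tl z = 0) :
    Om T w H y0 z = y0.1.compContinuousLinearMap ((FF z).restrictScalars ℝ) := by
  unfold Om
  rw [if_neg h0, if_pos h]

theorem tl_ne {z : C5} {j : Fin 4} (h : z j.succ ≠ 0) : tl z ≠ 0 := fun h4 => h (congrFun h4 j)

/-- near `z 0 = 0` -/
theorem Om_near (hS : TaskSmooth) {w : Idx → V → Alt 2} (hw : IsF 2 w) {z : C5} {j : Fin 4}
    (h : z j.succ ≠ 0) (hn : Complex.normSq (z 0) ≤ ss z) : Om T w H y0 z = OL w j z := by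
  by_cases h0 : z 0 = 0
  · exact Om_zero hS hw h0 h
  · have ht := tl_ne h
    rw [Om_ne h0 ht, OL_eq hS hw h0 h]
    congr 1
    apply At_near
    apply rr_le_one
    rw [xx_norm ht]
    rw [div_le_one (ss_pos ht)]
    exact hn

/-- near the pole -/
theorem Om_far (hF : Frame T TA) {G : Fin 3 → V → NegForm} (hH : IsNull G H y0)
    {w : Idx → V → Alt 2} {z : C5} (h0 : z 0 ≠ 0) (hn : 18 * ss z ≤ Complex.normSq (z 0)) :
    Om T w H y0 z = y0.1.compContinuousLinearMap ((FF z).restrictScalars ℝ) := by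
  by_cases ht : tl z = 0
  · exact Om_pole h0 ht
  · rw [Om_ne h0 ht]
    congr 1
    apply At_far hF hH
    apply three_le_rr
    rw [xx_norm ht, le_div_iff₀ (ss_pos ht)]
    exact hn

theorem Om_contAt (hP : PowProps) (hS : TaskSmooth) (hF : Frame T TA) {w : Idx → V → Alt 2}
    (hw : IsF 2 w) (hn : ∀ c q, pow4 (w c q) rb < 0) (hH : IsNull (GG hP hF hn) H y0) {z : C5}
    (hz : z ≠ 0) : ContinuousAt (Om T w H y0) z := by
  have hnc : Continuous fun z : C5 => Complex.normSq (z 0) :=
    Complex.continuous_normSq.comp (continuous_apply 0)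
  by_cases ht : tl z = 0
  · have h0 : z 0 ≠ 0 := by
      intro h0
      apply hz
      funext i
      refine Fin.cases h0 (fun j => ?_) i
      exact congrFun ht j
    have h1 : ContinuousAt (fun z => y0.1.compContinuousLinearMap ((FF z).restrictScalars ℝ)) z :=
      pb_contAt continuousAt_const (FF_contAt z)
    refine h1.congr ?_
    have h2 : ∀ᶠ y : C5 in 𝓝 z, y 0 ≠ 0 := (continuous_apply 0).continuousAt.eventually_ne h0
    have h3 : ∀ᶠ y : C5 in 𝓝 z, 18 * ss y < Complex.normSq (y 0) := by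
      have hcs : Continuous fun y : C5 => 18 * ss y := continuous_const.mul ss_cont
      refine hcs.continuousAt.eventually_lt hnc.continuousAt ?_
      have : ss z = 0 := by simp [ss, ht, na_zero, nb_zero]
      rw [this, mul_zero]
      exact Complex.normSq_pos.2 h0
    filter_upwards [h2, h3] with y hy1 hy2
    exact (Om_far hF hH hy1 hy2.le).symm
  · by_cases h0 : z 0 = 0
    · obtain ⟨j, hj⟩ := exists_ne ht
      refine (OL_contAt hw (j := j) hj).congr ?_
      have h2 : ∀ᶠ y : C5 in 𝓝 z, y j.succ ≠ 0 :=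
        (continuous_apply j.succ).continuousAt.eventually_ne hj
      have h3 : ∀ᶠ y : C5 in 𝓝 z, Complex.normSq (y 0) < ss y := by
        refine hnc.continuousAt.eventually_lt ss_cont.continuousAt ?_
        rw [h0, map_zero]
        exact ss_pos ht
      filter_upwards [h2, h3] with y hy1 hy2
      exact (Om_near hS hw hy1 hy2.le).symm
    · have h1 : ContinuousAt (fun z => (At T w H (xx z)).compContinuousLinearMap
          ((FF z).restrictScalars ℝ)) z := by
        refine pb_contAt ?_ (FF_contAt z)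
        exact (At_contAt hP hS hF hw hn hH (xx_ne h0 ht)).comp (f := xx) (xx_contAt ht)
      refine h1.congr ?_
      have h2 : ∀ᶠ y : C5 in 𝓝 z, y 0 ≠ 0 := (continuous_apply 0).continuousAt.eventually_ne h0
      have h3 : ∀ᶠ y : C5 in 𝓝 z, tl y ≠ 0 := tl_cont.continuousAt.eventually_ne ht
      filter_upwards [h2, h3] with y hy1 hy2
      exact (Om_ne hy1 hy2).symm

/-! ### equivariance -/

theorem rho_zero (t : Circle) (z : C5) : rho t z 0 = (starRingEnd ℂ) (t : ℂ) * z 0 := by
  simp [rho]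

theorem rho_succ (t : Circle) (z : C5) (i : Fin 4) : rho t z i.succ = (t : ℂ) * z i.succ := by
  simp [rho, Fin.succ_ne_zero]

theorem conj_mul_self' (t : Circle) : (starRingEnd ℂ) (t : ℂ) * (t : ℂ) = 1 := by
  rw [← Circle.coe_inv_eq_conj, Circle.coe_inv]
  exact inv_mul_cancel₀ (Circle.coe_ne_zero t)

theorem ss_rho (t : Circle) (z : C5) : ss (rho t z) = ss z := by
  rw [ss_eq, ss_eq]
  refine Finset.sum_congr rfl fun i _ => ?_
  rw [rho_succ, map_mul, Circle.normSq_coe, one_mul]

theorem tl_rho (t : Circle) (z : C5) : tl (rho t z) = 0 ↔ tl z = 0 := by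
  constructor
  · intro h
    funext i
    have := congrFun h i
    simp only [tl, rho_succ, Pi.zero_apply, mul_eq_zero] at this
    exact this.resolve_left (Circle.coe_ne_zero t)
  · intro h
    funext i
    have := congrFun h i
    simp only [tl, Pi.zero_apply] at this
    simp [tl, rho_succ, this]

theorem xx_rho (t : Circle) (z : C5) : xx (rho t z) = xx z := by
  funext i
  rw [xx_apply, xx_apply, ss_rho, rho_zero, rho_succ]
  have := conj_mul_self' t
  linear_combination (z 0 / (ss z : ℂ) * z i.succ) * this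

theorem FF_rho (t : Circle) (z v : C5) : FF (rho t z) (rho t v) = FF z v := by
  funext i
  rw [FF_apply, FF_apply, rho_zero, rho_succ, rho_succ, rho_zero]
  have := conj_mul_self' t
  linear_combination (z 0 * v i.succ - z i.succ * v 0) * this

theorem pp_rho (t : Circle) (z : C5) (j : Fin 4) : pp (rho t z) j = pp z j := by
  have := conj_mul_self' t
  funext i
  by_cases hi : i = j
  · simp only [pp, hi, if_true, ss_rho, rho_zero, rho_succ]
    linear_combination (z 0 / (ss z : ℂ) * z j.succ) * this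
  · simp only [pp, hi, if_false, rho_succ]
    exact mul_div_mul_left _ _ (Circle.coe_ne_zero t)

theorem KK_rho (t : Circle) (z v : C5) {j : Fin 4} (h : z j.succ ≠ 0) :
    KK (rho t z) j (rho t v) = KK z j v := by
  have := conj_mul_self' t
  funext i
  by_cases hi : i = j
  · subst hi
    rw [KK_self, KK_self, rho_zero, rho_succ, rho_succ, rho_zero]
    linear_combination (z 0 * v i.succ - z i.succ * v 0) * this
  · rw [KK_ne _ _ hi, KK_ne _ _ hi, ss_rho, rho_succ, rho_succ, rho_succ, rho_succ]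
    have ht := Circle.coe_ne_zero t
    field_simp

theorem Om_equiv (hS : TaskSmooth) {w : Idx → V → Alt 2} (hw : IsF 2 w) (t : Circle) {z : C5}
    (hz : z ≠ 0) (u v : C5) :
    Om T w H y0 (rho t z) ![rho t u, rho t v] = Om T w H y0 z ![u, v] := by
  by_cases ht : tl z = 0
  · have h0 : z 0 ≠ 0 := by
      intro h0
      apply hz
      funext i
      refine Fin.cases h0 (fun j => ?_) i
      exact congrFun ht j
    have h0' : rho t z 0 ≠ 0 := by
      rw [rho_zero]
      refine mul_ne_zero ?_ h0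
      intro h
      have := conj_mul_self' t
      rw [h, zero_mul] at this
      exact zero_ne_one this
    rw [Om_pole h0 ht, Om_pole h0' ((tl_rho t z).2 ht), pb_apply, pb_apply]
    show y0.1 ![FF (rho t z) (rho t u), FF (rho t z) (rho t v)] = y0.1 ![FF z u, FF z v]
    rw [FF_rho, FF_rho]
  · by_cases h0 : z 0 = 0
    · obtain ⟨j, hj⟩ := exists_ne ht
      have hj' : z j.succ ≠ 0 := hj
      have h0' : rho t z 0 = 0 := by rw [rho_zero, h0, mul_zero]
      have hj'' : rho t z j.succ ≠ 0 := by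
        rw [rho_succ]; exact mul_ne_zero (Circle.coe_ne_zero t) hj'
      rw [Om_zero hS hw h0 hj', Om_zero hS hw h0' hj'']
      unfold OL
      rw [pb_apply, pb_apply, pp_rho]
      show w (Sum.inl j) (pp z j) ![KK (rho t z) j (rho t u), KK (rho t z) j (rho t v)] =
        w (Sum.inl j) (pp z j) ![KK z j u, KK z j v]
      rw [KK_rho t z u hj', KK_rho t z v hj']
    · have h0' : rho t z 0 ≠ 0 := by
        rw [rho_zero]
        refine mul_ne_zero ?_ h0
        intro h
        have := conj_mul_self' t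
        rw [h, zero_mul] at this
        exact zero_ne_one this
      have ht' : tl (rho t z) ≠ 0 := fun h => ht ((tl_rho t z).1 h)
      rw [Om_ne h0 ht, Om_ne h0' ht', pb_apply, pb_apply, xx_rho]
      show At T w H (xx z) ![FF (rho t z) (rho t u), FF (rho t z) (rho t v)] =
        At T w H (xx z) ![FF z u, FF z v]
      rw [FF_rho, FF_rho]

/-! ### kernels -/

theorem FF_ker {z : C5} (h0 : z 0 ≠ 0) (v : C5) : FF z v = 0 ↔ ∃ c : ℂ, v = c • z := by
  constructor
  · intro h
    refine ⟨v 0 / z 0, ?_⟩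
    funext i
    refine Fin.cases ?_ (fun j => ?_) i
    · simp only [Pi.smul_apply, smul_eq_mul]
      field_simp
    · have h1 := congrFun h j
      rw [FF_apply, Pi.zero_apply] at h1
      simp only [Pi.smul_apply, smul_eq_mul]
      field_simp
      linear_combination h1
  · rintro ⟨c, rfl⟩
    funext i
    rw [FF_apply]
    simp only [Pi.smul_apply, smul_eq_mul, Pi.zero_apply]
    ring

theorem KK_ker {z : C5} {j : Fin 4} (hj : z j.succ ≠ 0) (v : C5) :
    KK z j v = 0 ↔ ∃ c : ℂ, v = c • z := by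
  have h5 : (ss z : ℂ) ≠ 0 := by exact_mod_cast (ss_pos (tl_ne hj)).ne'
  constructor
  · intro h
    refine ⟨v j.succ / z j.succ, ?_⟩
    funext i
    refine Fin.cases ?_ (fun k => ?_) i
    · have h1 := congrFun h j
      rw [KK_self, Pi.zero_apply] at h1
      simp only [Pi.smul_apply, smul_eq_mul]
      field_simp
      linear_combination -h1
    · by_cases hk : k = j
      · subst hk
        simp only [Pi.smul_apply, smul_eq_mul]
        field_simp
      · have h1 := congrFun h k
        rw [KK_ne _ _ hk, Pi.zero_apply, mul_eq_zero] at h1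
        have h2 := h1.resolve_left (div_ne_zero h5 hj)
        simp only [Pi.smul_apply, smul_eq_mul]
        have h3 : v k.succ = z k.succ / z j.succ * v j.succ := by linear_combination h2
        rw [h3]
        ring
  · rintro ⟨c, rfl⟩
    funext i
    by_cases hi : i = j
    · subst hi
      rw [KK_self]
      simp only [Pi.smul_apply, smul_eq_mul, Pi.zero_apply]
      ring
    · rw [KK_ne _ _ hi]
      simp only [Pi.smul_apply, smul_eq_mul, Pi.zero_apply]
      field_simp
      ring

theorem Om_neg (hP : PowProps) (hS : TaskSmooth) (hF : Frame T TA) {w : Idx → V → Alt 2}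
    (hw : IsF 2 w) (hn : ∀ c q, pow4 (w c q) rb < 0) {z : C5} (hz : z ≠ 0) :
    ∃ (Φ : C5 →L[ℂ] V) (A : Alt 2), (∀ v, Φ v = 0 ↔ ∃ c : ℂ, v = c • z) ∧
      pow4 A rb < 0 ∧ ∀ u v, Om T w H y0 z ![u, v] = A ![Φ u, Φ v] := by
  by_cases ht : tl z = 0
  · have h0 : z 0 ≠ 0 := by
      intro h0
      apply hz
      funext i
      refine Fin.cases h0 (fun j => ?_) i
      exact congrFun ht j
    refine ⟨FF z, y0.1, FF_ker h0, y0.2, ?_⟩
    intro u v
    rw [Om_pole h0 ht, pb_apply]
    rfl
  · by_cases h0 : z 0 = 0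
    · obtain ⟨j, hj⟩ := exists_ne ht
      have hj' : z j.succ ≠ 0 := hj
      refine ⟨KK z j, w (Sum.inl j) (pp z j), KK_ker hj', hn _ _, ?_⟩
      intro u v
      rw [Om_zero hS hw h0 hj']
      unfold OL
      rw [pb_apply]
      rfl
    · refine ⟨FF z, At T w H (xx z), FF_ker h0, At_neg hP hS hF hw hn (xx_ne h0 ht), ?_⟩
      intro u v
      rw [Om_ne h0 ht, pb_apply]
      rfl

end

theorem sph_ne {z : C5} (h : z ∈ sph) : z ≠ 0 := by
  rintro rfl
  have h1 : ∑ i : Fin 5, ‖(0 : C5) i‖ ^ 2 = 1 := h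
  simp at h1

/-- **SD-G10.** -/
theorem taskGlue : TaskGlue := by
  intro hP hS hnull T TA hF w hw hn
  obtain ⟨H, y0, hH⟩ := hnull (GG hP hF hn) (GG_cont hP hF hw hn) (GG_compat hP hF hw hn)
  refine ⟨Om T w H y0, ?_, ?_, ?_⟩
  · intro z hz
    exact (Om_contAt hP hS hF hw hn hH (sph_ne hz)).continuousWithinAt
  · intro t z hz u v
    exact Om_equiv hS hw t (sph_ne hz) u v
  · intro z hz
    exact Om_neg hP hS hF hw hn (sph_ne hz)

end Pool.Agent.TH790.SDG
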