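import Pool.Agent.TH179.SD.Lin

/-!
# Project SD, job G10, part 1: pullbacks, the field `A` on `V ∖ 0`
-/

set_option autoImplicit false

open scoped ContDiff Topology
open Set Filter

noncomputable section

namespace Pool.Agent.TH790.SDG

open Pool.Agent.TH179.SD

section pullback

variable {E F : Type} [NormedAddCommGroup E] [NormedSpace ℝ E] [NormedAddCommGroup F]
  [NormedSpace ℝ F]

theorem pb_tendsto {X : Type} {l : Filter X} {f : X → AltE F 2} {g : X → E →L[ℝ] F}
    {a : AltE F 2} {L : E →L[ℝ] F} (hf : Tendsto f l (𝓝 a)) (hg : Tendsto g l (𝓝 L)) :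
    Tendsto (fun x => (f x).compContinuousLinearMap (g x)) l (𝓝 (a.compContinuousLinearMap L)) :=
  ((ContinuousAlternatingMap.hasStrictFDerivAt_compContinuousLinearMap
    (𝕜 := ℝ) (a, L)).continuousAt.tendsto.comp (hf.prodMk_nhds hg))

theorem pb_contAt {X : Type} [TopologicalSpace X] {f : X → AltE F 2} {g : X → E →L[ℝ] F}
    {x : X} (hf : ContinuousAt f x) (hg : ContinuousAt g x) :
    ContinuousAt (fun x => (f x).compContinuousLinearMap (g x)) x :=
  pb_tendsto hf hg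

theorem pb_pb {G : Type} [NormedAddCommGroup G] [NormedSpace ℝ G] (a : AltE G 2) (L : F →L[ℝ] G)
    (M : E →L[ℝ] F) : (a.compContinuousLinearMap L).compContinuousLinearMap M =
      a.compContinuousLinearMap (L.comp M) := rfl

theorem pb_id (a : AltE E 2) : a.compContinuousLinearMap (ContinuousLinearMap.id ℝ E) = a := rfl

theorem pb_apply (a : AltE F 2) (L : E →L[ℝ] F) (u v : E) :
    a.compContinuousLinearMap L ![u, v] = a ![L u, L v] := by
  rw [ContinuousAlternatingMap.compContinuousLinearMap_apply]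
  congr 1
  ext i
  fin_cases i <;> rfl

end pullback

theorem pb_neg (hP : PowProps) {a : Alt 2} (ha : pow4 a rb < 0) {L : V →L[ℝ] V} (hL : 0 < L.det) :
    pow4 (a.compContinuousLinearMap L) rb < 0 := by
  unfold pow4 at ha ⊢
  rw [hP.comp]
  exact mul_neg_of_pos_of_neg hL ha

/-! ### the coordinate changes -/

theorem bd_bu (j : Fin 4) (x : V) (h : x j ≠ 0) : bd j (bu j x) = x := by
  funext i
  by_cases hi : i = j
  · subst hi; simp [bd, bu]
  · simp [bd, bu, hi]
    field_simp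

theorem fromW_tr (c : Fin 3) : ∃ c1 c2 : Fin 3, fromW (Sum.inr c) = tr (Sum.inr c1) (Sum.inr c2) ∧
    rngW (Sum.inr c) = O (Sum.inr c1) (Sum.inr c2) := by
  fin_cases c
  · refine ⟨1, 2, ?_, ?_⟩
    · simp [fromW, tr]
    · simp [rngW, O]
  · refine ⟨0, 2, ?_, ?_⟩
    · simp [fromW, tr]
    · simp [rngW, O]
  · refine ⟨0, 1, ?_, ?_⟩
    · simp [fromW, tr]
    · simp [rngW, O]

theorem fromW_smooth (hS : TaskSmooth) (c : Fin 3) : IsOpen (rngW (Sum.inr c)) ∧
    ContDiffOn ℝ ∞ (fromW (Sum.inr c)) (rngW (Sum.inr c)) ∧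
    ∀ x ∈ rngW (Sum.inr c), 0 < (fderiv ℝ (fromW (Sum.inr c)) x).det := by
  obtain ⟨c1, c2, h1, h2⟩ := fromW_tr c
  rw [h1, h2]
  obtain ⟨a, b, d, e, f⟩ := hS (Sum.inr c1) (Sum.inr c2)
  exact ⟨a, d, f⟩

/-- the derivative of `bu j` -/
def buD (j : Fin 4) (x : V) : V →L[ℝ] V :=
  ContinuousLinearMap.pi fun i => if i = j then ContinuousLinearMap.proj j else
    (x j)⁻¹ • (ContinuousLinearMap.proj i : V →L[ℝ] ℂ) -
      (x i / x j ^ 2) • (ContinuousLinearMap.proj j : V →L[ℝ] ℂ)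

theorem bu_hasFDerivAt (j : Fin 4) (x : V) (h : x j ≠ 0) : HasFDerivAt (bu j) (buD j x) x := by
  rw [hasFDerivAt_pi']
  intro i
  by_cases hi : i = j
  · subst hi
    have : (ContinuousLinearMap.proj i).comp (buD i x) = (ContinuousLinearMap.proj i : V →L[ℝ] ℂ) := by
      ext v; simp [buD]
    rw [this]
    have h2 : (fun x : V => bu i x i) = fun x => x i := by
      funext y; simp [bu]
    rw [h2]
    exact (ContinuousLinearMap.proj i : V →L[ℝ] ℂ).hasFDerivAt
  · have h1 : HasFDerivAt (fun y : V => y i) (ContinuousLinearMap.proj i : V →L[ℝ] ℂ) x :=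
      (ContinuousLinearMap.proj i : V →L[ℝ] ℂ).hasFDerivAt
    have h2 : HasFDerivAt (fun y : V => y j) (ContinuousLinearMap.proj j : V →L[ℝ] ℂ) x :=
      (ContinuousLinearMap.proj j : V →L[ℝ] ℂ).hasFDerivAt
    have h3 : HasFDerivAt (fun y : V => (y j)⁻¹)
        ((-(x j ^ 2)⁻¹) • (ContinuousLinearMap.proj j : V →L[ℝ] ℂ)) x := by
      have := (hasDerivAt_inv h).comp_hasFDerivAt (𝕜' := ℂ) (𝕜 := ℝ) (h₂ := fun y : ℂ => y⁻¹) x h2
      exact this
    have h4 := h1.mul h3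
    have h5 : (fun x : V => bu j x i) = (fun y => y i) * (fun y => (y j)⁻¹) := by
      funext y; simp [bu, hi, div_eq_mul_inv]
    rw [h5]
    refine h4.congr_fderiv ?_
    ext v
    simp only [buD, hi, if_false, ContinuousLinearMap.add_apply, ContinuousLinearMap.smul_apply,
      ContinuousLinearMap.proj_apply, ContinuousLinearMap.comp_apply, ContinuousLinearMap.pi_apply,
      ContinuousLinearMap.sub_apply, smul_eq_mul]
    field_simp
    ring

/-! ### the field `A` -/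

/-- the form in the chart `inr c`, as a form in the coordinates `w` -/
def AR (w : Idx → V → Alt 2) (c : Fin 3) (x : V) : Alt 2 :=
  (w (Sum.inr c) (fromW (Sum.inr c) x)).compContinuousLinearMap (fderiv ℝ (fromW (Sum.inr c)) x)

/-- the form in the chart `inl j`, as a form in the coordinates `w` -/
def AL (w : Idx → V → Alt 2) (j : Fin 4) (x : V) : Alt 2 :=
  (w (Sum.inl j) (bu j x)).compContinuousLinearMap (fderiv ℝ (bu j) x)

theorem AL_eq_AR (hS : TaskSmooth) {w : Idx → V → Alt 2} (hw : IsF 2 w) {j : Fin 4} {c : Fin 3}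
    {x : V} (hj : x j ≠ 0) (hc : x ∈ rngW (Sum.inr c)) : AL w j x = AR w c x := by
  have hb : bd j (bu j x) = x := bd_bu j x hj
  have hq : bu j x ∈ O (Sum.inl j) (Sum.inr c) := by
    show bu j x ∈ {q | q ∈ domW (Sum.inl j) ∧ toW (Sum.inl j) q ∈ rngW (Sum.inr c)}
    refine ⟨?_, ?_⟩
    · show bu j x j ≠ 0
      simpa [bu] using hj
    · show bd j (bu j x) ∈ _
      rw [hb]; exact hc
  have htr : tr (Sum.inl j) (Sum.inr c) = fun q => fromW (Sum.inr c) (bd j q) := rfl
  obtain ⟨ho, -, hs, -, -⟩ := hS (Sum.inl j) (Sum.inr c)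
  have hd : DifferentiableAt ℝ (tr (Sum.inl j) (Sum.inr c)) (bu j x) :=
    (hs.contDiffAt (ho.mem_nhds hq)).differentiableAt (by simp)
  have hd2 : DifferentiableAt ℝ (bu j) x := (bu_hasFDerivAt j x hj).differentiableAt
  have h1 : (fderiv ℝ (tr (Sum.inl j) (Sum.inr c)) (bu j x)).comp (fderiv ℝ (bu j) x) =
      fderiv ℝ (fromW (Sum.inr c)) x := by
    rw [← fderiv_comp x hd hd2]
    apply Filter.EventuallyEq.fderiv_eq
    have : ∀ᶠ y in 𝓝 x, y j ≠ 0 := (continuous_apply j).continuousAt.eventually_ne hj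
    filter_upwards [this] with y hy
    show fromW (Sum.inr c) (bd j (bu j y)) = _
    rw [bd_bu j y hy]
  unfold AL AR
  rw [hw.compat _ _ _ hq, pb_pb, h1]
  congr 2
  show fromW (Sum.inr c) (bd j (bu j x)) = _
  rw [hb]

theorem na_zero : na 0 = 0 := by simp [na]
theorem nb_zero : nb 0 = 0 := by simp [nb]

theorem na_nonneg (x : V) : 0 ≤ na x := by unfold na; positivity
theorem nb_nonneg (x : V) : 0 ≤ nb x := by unfold nb; positivity

theorem eq_zero_of_na_nb {x : V} (h1 : na x = 0) (h2 : nb x = 0) : x = 0 := by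
  unfold na at h1
  unfold nb at h2
  have a1 : (x 0).re ^ 2 = 0 := by nlinarith [sq_nonneg (x 0).re, sq_nonneg (x 0).im, sq_nonneg (x 1).re]
  have a2 : (x 0).im ^ 2 = 0 := by nlinarith [sq_nonneg (x 0).re, sq_nonneg (x 0).im, sq_nonneg (x 1).re]
  have a3 : (x 1).re ^ 2 = 0 := by nlinarith [sq_nonneg (x 0).re, sq_nonneg (x 0).im, sq_nonneg (x 1).re]
  have b1 : (x 1).im ^ 2 = 0 := by
    nlinarith [sq_nonneg (x 1).im, sq_nonneg (x 2).re, sq_nonneg (x 2).im, sq_nonneg (x 3).re, sq_nonneg (x 3).im]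
  have b2 : (x 2).re ^ 2 = 0 := by
    nlinarith [sq_nonneg (x 1).im, sq_nonneg (x 2).re, sq_nonneg (x 2).im, sq_nonneg (x 3).re, sq_nonneg (x 3).im]
  have b3 : (x 2).im ^ 2 = 0 := by
    nlinarith [sq_nonneg (x 1).im, sq_nonneg (x 2).re, sq_nonneg (x 2).im, sq_nonneg (x 3).re, sq_nonneg (x 3).im]
  have b4 : (x 3).re ^ 2 = 0 := by
    nlinarith [sq_nonneg (x 1).im, sq_nonneg (x 2).re, sq_nonneg (x 2).im, sq_nonneg (x 3).re, sq_nonneg (x 3).im]
  have b5 : (x 3).im ^ 2 = 0 := by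
    nlinarith [sq_nonneg (x 1).im, sq_nonneg (x 2).re, sq_nonneg (x 2).im, sq_nonneg (x 3).re, sq_nonneg (x 3).im]
  funext i
  fin_cases i
  · exact Complex.ext (by simpa using a1) (by simpa using a2)
  · exact Complex.ext (by simpa using a3) (by simpa using b1)
  · exact Complex.ext (by simpa using b2) (by simpa using b3)
  · exact Complex.ext (by simpa using b4) (by simpa using b5)

theorem cont_na : Continuous na := by unfold na; fun_prop
theorem cont_nb : Continuous nb := by unfold nb; fun_prop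

theorem exists_ne {x : V} (h : x ≠ 0) : ∃ j, x j ≠ 0 := by
  by_contra hc
  push Not at hc
  exact h (funext hc)

theorem AR_eq_AR (hS : TaskSmooth) {w : Idx → V → Alt 2} (hw : IsF 2 w) {c d : Fin 3}
    {x : V} (hx : x ≠ 0) (hc : x ∈ rngW (Sum.inr c)) (hd : x ∈ rngW (Sum.inr d)) :
    AR w c x = AR w d x := by
  obtain ⟨j, hj⟩ := exists_ne hx
  rw [← AL_eq_AR hS hw hj hc, ← AL_eq_AR hS hw hj hd]

open Classical in
/-- the form in the coordinates `w` -/
def AA (w : Idx → V → Alt 2) (x : V) : Alt 2 := if na x ≠ 0 then AR w 0 x else AR w 1 x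

theorem mem_rng0 {x : V} (h : na x ≠ 0) : x ∈ rngW (Sum.inr 0) := h
theorem mem_rng1 {x : V} (h : nb x ≠ 0) : x ∈ rngW (Sum.inr 1) := h

theorem exists_rng {x : V} (h : x ≠ 0) : ∃ c : Fin 3, x ∈ rngW (Sum.inr c) := by
  by_cases h1 : na x ≠ 0
  · exact ⟨0, h1⟩
  · by_cases h2 : nb x ≠ 0
    · exact ⟨1, h2⟩
    · push Not at h1 h2
      exact absurd (eq_zero_of_na_nb h1 h2) h

theorem AA_eq_AR (hS : TaskSmooth) {w : Idx → V → Alt 2} (hw : IsF 2 w) {c : Fin 3}
    {x : V} (hx : x ≠ 0) (hc : x ∈ rngW (Sum.inr c)) : AA w x = AR w c x := by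
  unfold AA
  split_ifs with h
  · exact AR_eq_AR hS hw hx (mem_rng0 h) hc
  · have h2 : nb x ≠ 0 := by
      intro h3
      push Not at h
      exact hx (eq_zero_of_na_nb h h3)
    exact AR_eq_AR hS hw hx (mem_rng1 h2) hc

theorem AA_eq_AL (hS : TaskSmooth) {w : Idx → V → Alt 2} (hw : IsF 2 w) {j : Fin 4}
    {x : V} (hj : x j ≠ 0) : AA w x = AL w j x := by
  have hx : x ≠ 0 := by rintro rfl; exact hj rfl
  obtain ⟨c, hc⟩ := exists_rng hx
  rw [AA_eq_AR hS hw hx hc, AL_eq_AR hS hw hj hc]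

theorem rng_ne_zero {c : Fin 3} {x : V} (h : x ∈ rngW (Sum.inr c)) : x ≠ 0 := by
  rintro rfl
  fin_cases c
  · exact h na_zero
  · exact h nb_zero
  · exact h.1 na_zero

theorem AR_contAt (hS : TaskSmooth) {w : Idx → V → Alt 2} (hw : IsF 2 w) {c : Fin 3}
    {x : V} (hc : x ∈ rngW (Sum.inr c)) : ContinuousAt (AR w c) x := by
  obtain ⟨ho, hs, -⟩ := fromW_smooth hS c
  have h := hs.contDiffAt (ho.mem_nhds hc)
  have h1 : ContinuousAt (fderiv ℝ (fromW (Sum.inr c))) x :=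
    (h.fderiv_right (m := 0) (by simp)).continuousAt
  have h2 : ContinuousAt (fun x => w (Sum.inr c) (fromW (Sum.inr c) x)) x :=
    (hw.smooth _).continuous.continuousAt.comp h.continuousAt
  exact pb_contAt h2 h1

theorem AA_contAt (hS : TaskSmooth) {w : Idx → V → Alt 2} (hw : IsF 2 w)
    {x : V} (hx : x ≠ 0) : ContinuousAt (AA w) x := by
  obtain ⟨c, hc⟩ := exists_rng hx
  refine (AR_contAt hS hw hc).congr ?_
  filter_upwards [(fromW_smooth hS c).1.mem_nhds hc] with y hy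
  exact (AA_eq_AR hS hw (rng_ne_zero hy) hy).symm

theorem AA_neg (hP : PowProps) (hS : TaskSmooth) {w : Idx → V → Alt 2} (hw : IsF 2 w)
    (hn : ∀ c q, pow4 (w c q) rb < 0) {x : V} (hx : x ≠ 0) : pow4 (AA w x) rb < 0 := by
  obtain ⟨c, hc⟩ := exists_rng hx
  rw [AA_eq_AR hS hw hx hc]
  exact pb_neg hP (hn _ _) ((fromW_smooth hS c).2.2 x hc)

end Pool.Agent.TH790.SDG
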