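import Pool.Agent.TH790.SDG.Glue1

/-!
# Project SD, job G10, part 2: the maps `G`, the field on `V ∖ 0` which is constant near infinity
-/

set_option autoImplicit false

open scoped ContDiff Topology
open Set Filter

noncomputable section

namespace Pool.Agent.TH790.SDG

open Pool.Agent.TH179.SD

/-! ### the inverse of a linear map of positive determinant -/

/-- the inverse -/
def inv (L : V →L[ℝ] V) : V →L[ℝ] V := ContinuousLinearMap.inverse L

theorem det_ne {L : V →L[ℝ] V} (h : 0 < L.det) : L.det ≠ 0 := h.ne'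

theorem exists_equiv {L : V →L[ℝ] V} (h : 0 < L.det) : ∃ e : V ≃L[ℝ] V, (e : V →L[ℝ] V) = L :=
  ⟨L.toContinuousLinearEquivOfDetNeZero h.ne', by ext x; simp⟩

theorem comp_inv {L : V →L[ℝ] V} (h : 0 < L.det) : L.comp (inv L) = ContinuousLinearMap.id ℝ V := by
  obtain ⟨e, rfl⟩ := exists_equiv h
  unfold inv
  rw [ContinuousLinearMap.inverse_equiv]
  ext x; simp

theorem inv_comp {L : V →L[ℝ] V} (h : 0 < L.det) : (inv L).comp L = ContinuousLinearMap.id ℝ V := by
  obtain ⟨e, rfl⟩ := exists_equiv h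
  unfold inv
  rw [ContinuousLinearMap.inverse_equiv]
  ext x; simp

theorem det_comp (L M : V →L[ℝ] V) : (L.comp M).det = L.det * M.det := by
  simp only [ContinuousLinearMap.det]
  rw [← LinearMap.det_comp]
  rfl

theorem det_inv {L : V →L[ℝ] V} (h : 0 < L.det) : 0 < (inv L).det := by
  have h1 := det_comp L (inv L)
  rw [comp_inv h] at h1
  have h2 : (ContinuousLinearMap.id ℝ V).det = 1 := by
    simp [ContinuousLinearMap.det]
  rw [h2] at h1
  by_contra h3
  push Not at h3
  nlinarith

theorem inv_contAt {L : V →L[ℝ] V} (h : 0 < L.det) : ContinuousAt inv L := by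
  have : L = ((L.toContinuousLinearEquivOfDetNeZero h.ne' : V ≃L[ℝ] V) : V →L[ℝ] V) := by
    ext x; simp
  rw [this]
  exact (contDiffAt_map_inverse (𝕜 := ℝ) (n := 0) _).continuousAt

/-! ### the maps `G` -/

section G

variable {T : V → V →L[ℝ] V} {TA : Fin 3 → V → V →L[ℝ] V}

/-- the form in the chart `inr c` in the frame -/
def GG (hP : PowProps) (hF : Frame T TA) {w : Idx → V → Alt 2}
    (hn : ∀ c q, pow4 (w c q) rb < 0) (c : Fin 3) (q : V) : NegForm :=
  ⟨(w (Sum.inr c) q).compContinuousLinearMap (inv (TA c q)),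
    pb_neg hP (hn _ _) (det_inv (hF.detA c q))⟩

theorem GG_cont (hP : PowProps) (hF : Frame T TA) {w : Idx → V → Alt 2} (hw : IsF 2 w)
    (hn : ∀ c q, pow4 (w c q) rb < 0) (c : Fin 3) : Continuous (GG hP hF hn c) := by
  refine Continuous.subtype_mk ?_ _
  rw [continuous_iff_continuousAt]
  intro q
  refine pb_contAt (hw.smooth _).continuous.continuousAt ?_
  exact (inv_contAt (hF.detA c q)).comp (f := TA c) (hF.smoothA c).continuous.continuousAt

theorem GG_compat (hP : PowProps) (hF : Frame T TA) {w : Idx → V → Alt 2} (hw : IsF 2 w)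
    (hn : ∀ c q, pow4 (w c q) rb < 0) (c d : Fin 3) (q : V) (hq : q ∈ O (Sum.inr c) (Sum.inr d)) :
    GG hP hF hn c q = GG hP hF hn d (tr (Sum.inr c) (Sum.inr d) q) := by
  apply Subtype.ext
  show (w (Sum.inr c) q).compContinuousLinearMap (inv (TA c q)) =
    (w (Sum.inr d) (tr (Sum.inr c) (Sum.inr d) q)).compContinuousLinearMap
      (inv (TA d (tr (Sum.inr c) (Sum.inr d) q)))
  rw [hw.compat _ _ q hq, pb_pb]
  congr 1
  set D := fderiv ℝ (tr (Sum.inr c) (Sum.inr d)) q with hD
  set Td := TA d (tr (Sum.inr c) (Sum.inr d) q) with hTd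
  have h1 : TA c q = Td.comp D := hF.compatA c d q hq
  have h2 : (TA c q).comp (inv (TA c q)) = ContinuousLinearMap.id ℝ V := comp_inv (hF.detA c q)
  have h3 : (inv Td).comp Td = ContinuousLinearMap.id ℝ V := inv_comp (hF.detA d _)
  calc D.comp (inv (TA c q)) = ((inv Td).comp Td).comp (D.comp (inv (TA c q))) := by
        rw [h3]; rfl
    _ = (inv Td).comp ((Td.comp D).comp (inv (TA c q))) := rfl
    _ = (inv Td).comp (ContinuousLinearMap.id ℝ V) := by rw [← h1, h2]
    _ = inv Td := rfl

/-! ### radial coordinates -/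

/-- the radius -/
def rr (x : V) : ℝ := Real.sqrt (max (na x) (nb x))

theorem rr_cont : Continuous rr := by
  unfold rr
  exact (cont_na.max cont_nb).sqrt

theorem rr_pos {x : V} (h : x ≠ 0) : 0 < rr x := by
  unfold rr
  apply Real.sqrt_pos.2
  by_contra hc
  push Not at hc
  have h1 := le_trans (le_max_left _ _) hc
  have h2 := le_trans (le_max_right _ _) hc
  exact h (eq_zero_of_na_nb (le_antisymm h1 (na_nonneg x)) (le_antisymm h2 (nb_nonneg x)))

/-- the direction -/
def eta (x : V) : V := (rr x)⁻¹ • x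

theorem na_smul (t : ℝ) (x : V) : na (t • x) = t ^ 2 * na x := by
  simp [na]; ring

theorem nb_smul (t : ℝ) (x : V) : nb (t • x) = t ^ 2 * nb x := by
  simp [nb]; ring

theorem eta_mem {x : V} (h : x ≠ 0) : eta x ∈ bdry := by
  show max (na (eta x)) (nb (eta x)) = 1
  unfold eta
  rw [na_smul, nb_smul, ← mul_max_of_nonneg _ _ (sq_nonneg _)]
  have h1 : rr x ^ 2 = max (na x) (nb x) := by
    unfold rr
    exact Real.sq_sqrt (le_trans (na_nonneg x) (le_max_left _ _))
  rw [← h1]
  have := rr_pos h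
  field_simp

theorem eta_contAt {x : V} (h : x ≠ 0) : ContinuousAt eta x := by
  unfold eta
  exact (rr_cont.continuousAt.inv₀ (rr_pos h).ne').smul continuousAt_id

/-- clamp to the unit interval -/
def cl (t : ℝ) : ℝ := max 0 (min 1 t)

theorem cl_cont : Continuous cl := by unfold cl; fun_prop

theorem cl_mem (t : ℝ) : cl t ∈ Icc (0 : ℝ) 1 := by
  unfold cl
  exact ⟨le_max_left _ _, max_le zero_le_one (min_le_left _ _)⟩

theorem cl_of_le {t : ℝ} (h : t ≤ 0) : cl t = 0 := by
  unfold cl
  rw [min_eq_right (h.trans zero_le_one), max_eq_left h]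

theorem cl_of_ge {t : ℝ} (h : 1 ≤ t) : cl t = 1 := by
  unfold cl
  rw [min_eq_left h, max_eq_right zero_le_one]

/-- the outer part of the field -/
def EE (T : V → V →L[ℝ] V) (H : ℝ → V → NegForm) (x : V) : Alt 2 :=
  (H (cl (rr x - 2)) (eta x)).1.compContinuousLinearMap (T (cl (2 - rr x) • eta x))

open Classical in
/-- the field on `V ∖ 0` -/
def At (T : V → V →L[ℝ] V) (w : Idx → V → Alt 2) (H : ℝ → V → NegForm) (x : V) : Alt 2 :=
  if rr x ≤ 1 then AA w x else EE T H x

variable {G : Fin 3 → V → NegForm} {H : ℝ → V → NegForm} {y0 : NegForm}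

theorem EE_contAt (hF : Frame T TA) (hH : IsNull G H y0) {x : V} (hx : x ≠ 0) :
    ContinuousAt (EE T H) x := by
  unfold EE
  refine pb_contAt ?_ ?_
  · refine continuous_subtype_val.continuousAt.comp ?_
    have h1 : ContinuousOn (fun x : V => (cl (rr x - 2), eta x)) {x | x ≠ 0} := by
      intro y hy
      refine ContinuousAt.continuousWithinAt ?_
      exact (cl_cont.comp (rr_cont.sub continuous_const)).continuousAt.prodMk (eta_contAt hy)
    have h2 : MapsTo (fun x : V => (cl (rr x - 2), eta x)) {x | x ≠ 0} (Icc 0 1 ×ˢ bdry) := by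
      intro y hy
      exact ⟨cl_mem _, eta_mem hy⟩
    have h3 := hH.cont.comp h1 h2
    exact (h3.continuousAt (isOpen_ne.mem_nhds hx))
  · refine hF.smooth.continuous.continuousAt.comp ?_
    exact (cl_cont.comp (continuous_const.sub rr_cont)).continuousAt.smul (eta_contAt hx)

theorem EE_neg (hP : PowProps) (hF : Frame T TA) (x : V) : pow4 (EE T H x) rb < 0 :=
  pb_neg hP (H _ _).2 (hF.det _)

theorem At_neg (hP : PowProps) (hS : TaskSmooth) (hF : Frame T TA) {w : Idx → V → Alt 2}
    (hw : IsF 2 w) (hn : ∀ c q, pow4 (w c q) rb < 0) {x : V} (hx : x ≠ 0) :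
    pow4 (At T w H x) rb < 0 := by
  unfold At
  split_ifs
  · exact AA_neg hP hS hw hn hx
  · exact EE_neg hP hF x

theorem At_near {w : Idx → V → Alt 2} {x : V} (h : rr x ≤ 1) : At T w H x = AA w x := by
  unfold At
  rw [if_pos h]

theorem EE_far (hF : Frame T TA) (hH : IsNull G H y0) {x : V} (h : 3 ≤ rr x) :
    EE T H x = y0.1 := by
  have hx : x ≠ 0 := by
    rintro rfl
    have : rr 0 = 0 := by simp [rr, na_zero, nb_zero]
    rw [this] at h
    norm_num at h
  unfold EE
  rw [cl_of_ge (by linarith), cl_of_le (by linarith), zero_smul, hF.zero, pb_id,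
    hH.one _ (eta_mem hx)]

theorem At_far (hF : Frame T TA) (hH : IsNull G H y0) {w : Idx → V → Alt 2} {x : V}
    (h : 3 ≤ rr x) : At T w H x = y0.1 := by
  unfold At
  rw [if_neg (by linarith), EE_far hF hH h]

theorem EE_eq_AA (hP : PowProps) (hS : TaskSmooth) (hF : Frame T TA) {w : Idx → V → Alt 2}
    (hw : IsF 2 w) (hn : ∀ c q, pow4 (w c q) rb < 0) (hH : IsNull (GG hP hF hn) H y0) {x : V}
    (h : rr x = 1) : EE T H x = AA w x := by
  have hx : x ≠ 0 := by
    rintro rfl
    have : rr 0 = 0 := by simp [rr, na_zero, nb_zero]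
    rw [this] at h
    norm_num at h
  have he : eta x = x := by simp [eta, h]
  have hb : x ∈ bdry := by
    have := eta_mem hx
    rwa [he] at this
  unfold EE
  rw [he, h, cl_of_le (by norm_num), cl_of_ge (by norm_num), one_smul]
  obtain ⟨c, hc⟩ := exists_rng hx
  rw [hH.zero c x hb hc, AA_eq_AR hS hw hx hc]
  show ((w (Sum.inr c) (fromW (Sum.inr c) x)).compContinuousLinearMap
    (inv (TA c (fromW (Sum.inr c) x)))).compContinuousLinearMap (T x) = _
  rw [pb_pb, hF.compat c x hc]
  unfold AR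
  congr 1
  have h3 := inv_comp (hF.detA c (fromW (Sum.inr c) x))
  calc (inv (TA c (fromW (Sum.inr c) x))).comp ((TA c (fromW (Sum.inr c) x)).comp
        (fderiv ℝ (fromW (Sum.inr c)) x)) =
      ((inv (TA c (fromW (Sum.inr c) x))).comp (TA c (fromW (Sum.inr c) x))).comp
        (fderiv ℝ (fromW (Sum.inr c)) x) := rfl
    _ = _ := by rw [h3]; rfl

theorem At_contAt (hP : PowProps) (hS : TaskSmooth) (hF : Frame T TA) {w : Idx → V → Alt 2}
    (hw : IsF 2 w) (hn : ∀ c q, pow4 (w c q) rb < 0) (hH : IsNull (GG hP hF hn) H y0) {x : V}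
    (hx : x ≠ 0) : ContinuousAt (At T w H) x := by
  have hA := AA_contAt hS hw hx
  have hE := EE_contAt hF hH hx
  rcases lt_trichotomy (rr x) 1 with h | h | h
  · refine hA.congr ?_
    filter_upwards [rr_cont.continuousAt.eventually_lt continuousAt_const h] with y hy
    exact (At_near hy.le).symm
  · unfold ContinuousAt
    rw [At_near h.le]
    unfold At
    refine Tendsto.if' ?_ ?_
    · exact hA
    · rw [← EE_eq_AA hP hS hF hw hn hH h]
      exact hE
  · refine hE.congr ?_
    filter_upwards [continuousAt_const.eventually_lt rr_cont.continuousAt h] with y hy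
    unfold At
    rw [if_neg (by linarith)]

end G

end Pool.Agent.TH790.SDG
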